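import Mathlib

set_option autoImplicit false

namespace Pool.Agent.Results.MP_409260_co.Join

open Finset

/-- The vertex set of the ball of radius r around v. -/
def ball {V : Type} (G : SimpleGraph V) (v : V) (r : ℕ) : Set V := {u | G.edist v u ≤ r}

/-- All balls of radius r have k vertices and are pairwise isomorphic as rooted graphs. -/
def UniformBalls {V : Type} (G : SimpleGraph V) (r k : ℕ) : Prop :=
  (∀ v, (ball G v r).ncard = k) ∧
    ∀ v w, ∃ φ : G.induce (ball G v r) ≃g G.induce (ball G w r),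
      ∀ x : ball G v r, x.1 = v → (φ x).1 = w

/-- Vertex transitivity. -/
def VertexTransitive {V : Type} (G : SimpleGraph V) : Prop := ∀ v w, ∃ φ : G ≃g G, φ v = w

/-- Adjacency of the disjoint union of a 4-cycle on 0..3 and a 5-cycle on 4..8. -/
def h (x y : Fin 9) : Prop :=
  (x.val < 4 ∧ y.val < 4 ∧ (x.val + y.val) % 2 = 1) ∨
    (4 ≤ x.val ∧ 4 ≤ y.val ∧ ((x.val + 1) % 5 = y.val % 5 ∨ (y.val + 1) % 5 = x.val % 5))

instance : DecidableRel h := by unfold h; infer_instance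

lemma h_symm : ∀ x y, h x y → h y x := by decide
lemma h_irrefl : ∀ x, ¬ h x x := by decide

/-- The join of m copies of the disjoint union of a 4-cycle and a 5-cycle. -/
def gr (m : ℕ) : SimpleGraph (Fin m × Fin 9) where
  Adj p q := p.1 ≠ q.1 ∨ h p.2 q.2
  symm := ⟨fun _ _ hpq => hpq.imp Ne.symm (h_symm _ _)⟩
  loopless := ⟨fun _ hp => hp.elim (fun h => h rfl) (h_irrefl _)⟩

/-- A labelling of the nine vertices starting with x and its two neighbours. -/
def tau : Fin 9 → Fin 9 → Fin 9 :=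
  ![![0, 1, 3, 2, 4, 5, 6, 7, 8], ![1, 0, 2, 3, 4, 5, 6, 7, 8], ![2, 1, 3, 0, 4, 5, 6, 7, 8],
    ![3, 0, 2, 1, 4, 5, 6, 7, 8], ![4, 5, 8, 0, 1, 2, 3, 6, 7], ![5, 4, 6, 0, 1, 2, 3, 7, 8],
    ![6, 5, 7, 0, 1, 2, 3, 4, 8], ![7, 6, 8, 0, 1, 2, 3, 4, 5], ![8, 7, 4, 0, 1, 2, 3, 5, 6]]

lemma tau_bij : ∀ x, Function.Bijective (tau x) := by decide +kernel
lemma tau_zero : ∀ x, tau x 0 = x := by decide +kernel
lemma tau_nb : ∀ x z, (h x (tau x z) ∨ x = tau x z) ↔ z.val < 3 := by decide +kernel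
lemma tau_adj : ∀ x y z z', z.val < 3 → z'.val < 3 →
    (h (tau x z) (tau x z') ↔ h (tau y z) (tau y z')) := by decide +kernel

lemma mem_ball {m : ℕ} (v u : Fin m × Fin 9) :
    u ∈ ball (gr m) v 1 ↔ v.1 ≠ u.1 ∨ (h v.2 u.2 ∨ v.2 = u.2) := by
  simp only [ball, Set.mem_ofPred_eq, Nat.cast_one, SimpleGraph.edist_le_one_iff_adj_or_eq]
  constructor
  · rintro ((h1 | h1) | rfl)
    · exact Or.inl h1
    · exact Or.inr (Or.inl h1)
    · exact Or.inr (Or.inr rfl)
  · rintro (h1 | h1 | h1)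
    · exact Or.inl (Or.inl h1)
    · exact Or.inl (Or.inr h1)
    · by_cases h2 : v.1 = u.1
      · exact Or.inr (Prod.ext h2 h1)
      · exact Or.inl (Or.inl h2)

lemma nb_card : ∀ x : Fin 9, (univ.filter (fun y => ¬ (h x y ∨ x = y))).card = 6 := by
  decide +kernel

lemma ball_card {m : ℕ} (v : Fin m × Fin 9) : (ball (gr m) v 1).ncard = 9 * m - 6 := by
  have e : (ball (gr m) v 1)ᶜ =
      ↑(({v.1} : Finset (Fin m)) ×ˢ univ.filter (fun y => ¬ (h v.2 y ∨ v.2 = y))) := by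
    ext u
    simp only [Set.mem_compl_iff, mem_ball, not_or, not_not, coe_product, Set.mem_prod,
      coe_singleton, Set.mem_singleton_iff, coe_filter, mem_univ, true_and, Set.mem_ofPred_eq]
    exact and_congr eq_comm Iff.rfl
  have h1 := Set.ncard_add_ncard_compl (ball (gr m) v 1)
  rw [e, Set.ncard_coe_finset, card_product, nb_card] at h1
  simp only [card_singleton, Nat.card_eq_fintype_card, Fintype.card_prod, Fintype.card_fin] at h1
  omega

lemma iso {m : ℕ} (v w : Fin m × Fin 9) :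
    ∃ φ : (gr m).induce (ball (gr m) v 1) ≃g (gr m).induce (ball (gr m) w 1),
      ∀ x : ball (gr m) v 1, x.1 = v → (φ x).1 = w := by
  let tv := Equiv.ofBijective _ (tau_bij v.2)
  let tw := Equiv.ofBijective _ (tau_bij w.2)
  let π : Fin m × Fin 9 ≃ Fin m × Fin 9 :=
    Equiv.prodShear (Equiv.swap v.1 w.1)
      (fun i => if i = v.1 then tv.symm.trans tw else Equiv.refl _)
  have π1 : ∀ u, (π u).1 = Equiv.swap v.1 w.1 u.1 := fun u => rfl
  have π2 : ∀ z, π (v.1, tau v.2 z) = (w.1, tau w.2 z) := by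
    intro z
    have : tv.symm (tau v.2 z) = z := tv.symm_apply_apply z
    simp [π, this, tw]
  have π3 : ∀ u : Fin m × Fin 9, u.1 ≠ v.1 → (π u).2 = u.2 := by
    intro u hu
    simp [π, hu]
  have sj : ∀ u : Fin m × Fin 9, u.1 = v.1 → ∃ z, u = (v.1, tau v.2 z) := by
    intro u hu
    obtain ⟨z, hz⟩ := (tau_bij v.2).2 u.2
    exact ⟨z, Prod.ext hu hz.symm⟩
  have hmem : ∀ u, u ∈ ball (gr m) v 1 ↔ π u ∈ ball (gr m) w 1 := by
    intro u
    rw [mem_ball, mem_ball]
    by_cases hu : u.1 = v.1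
    · obtain ⟨z, rfl⟩ := sj u hu
      rw [π2]
      simp only [ne_eq, not_true_eq_false, false_or, tau_nb]
    · refine iff_of_true (Or.inl (Ne.symm hu)) (Or.inl ?_)
      rw [π1]
      intro h
      apply hu
      have := congrArg (Equiv.swap v.1 w.1) h
      simpa using this.symm
  refine ⟨⟨π.subtypeEquiv hmem, ?_⟩, ?_⟩
  · rintro ⟨a, ha⟩ ⟨b, hb⟩
    change ((π a).1 ≠ (π b).1 ∨ h (π a).2 (π b).2) ↔ (a.1 ≠ b.1 ∨ h a.2 b.2)
    rw [π1, π1, (Equiv.swap v.1 w.1).injective.ne_iff]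
    by_cases hab : a.1 = b.1
    · simp only [hab, ne_eq, not_true_eq_false, false_or]
      by_cases hu : a.1 = v.1
      · obtain ⟨z, rfl⟩ := sj a hu
        obtain ⟨z', rfl⟩ := sj b (hab.symm.trans hu)
        rw [π2, π2]
        rw [mem_ball] at ha hb
        simp only [ne_eq, not_true_eq_false, false_or, tau_nb] at ha hb
        exact tau_adj _ _ _ _ ha hb
      · rw [π3 a hu, π3 b (hab ▸ hu)]
    · simp [hab]
  · rintro ⟨x, hx⟩ hxv
    change π x = w
    have e : x = (v.1, tau v.2 0) := by rw [tau_zero]; exact hxv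
    rw [e, π2, tau_zero]

lemma no_twin : ∀ y : Fin 9, (∀ z, h 4 z ↔ h y z) → y = 4 := by decide +kernel
lemma twin : ∀ z : Fin 9, h 0 z ↔ h 2 z := by decide +kernel

lemma not_vt {m : ℕ} (a : Fin m) : ¬ VertexTransitive (gr m) := by
  intro hvt
  obtain ⟨φ, hφ⟩ := hvt (a, 0) (a, 4)
  have key : ∀ u, (gr m).Adj (a, 4) u ↔ (gr m).Adj (φ (a, 2)) u := by
    intro u
    obtain ⟨u, rfl⟩ := φ.surjective u
    rw [← hφ, φ.map_adj_iff, φ.map_adj_iff]
    exact or_congr Iff.rfl (twin _)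
  have h1 : (φ (a, 2)).1 = a := by
    by_contra hne
    exact (gr m).irrefl ((key _).1 (Or.inl (Ne.symm hne)))
  have h2 : (φ (a, 2)).2 = 4 := by
    refine no_twin _ (fun z => ?_)
    have := key (a, z)
    change (a ≠ a ∨ h 4 z) ↔ ((φ (a, 2)).1 ≠ a ∨ h (φ (a, 2)).2 z) at this
    rw [h1] at this
    simpa using this
  have : φ (a, 2) = φ (a, 0) := by rw [hφ]; exact Prod.ext h1 h2
  have := φ.injective this
  simp at this

lemma diam_two {m : ℕ} (hm : 2 ≤ m) : (gr m).ediam = 2 := by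
  apply le_antisymm
  · refine SimpleGraph.ediam_le_of_edist_le (fun u v => ?_)
    by_cases huv : u.1 = v.1
    · obtain ⟨c, hc⟩ : ∃ c : Fin m, u.1 ≠ c := by
        by_cases h0 : u.1.val = 0
        · exact ⟨⟨1, by omega⟩, fun h => by rw [h] at h0; simp at h0⟩
        · exact ⟨⟨0, by omega⟩, fun h => by rw [h] at h0; simp at h0⟩
      have a1 : (gr m).Adj u (c, 0) := Or.inl hc
      have a2 : (gr m).Adj (c, 0) v := Or.inl (by rw [← huv]; exact hc.symm)
      exact SimpleGraph.edist_le (SimpleGraph.Walk.cons a1 (SimpleGraph.Walk.cons a2 .nil))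
    · have a1 : (gr m).Adj u v := Or.inl huv
      rw [SimpleGraph.edist_eq_one_iff_adj.2 a1]
      norm_num
  · refine le_trans ?_ (SimpleGraph.edist_le_ediam (u := (⟨0, by omega⟩, 0)) (v := (⟨0, by omega⟩, 2)))
    by_contra hlt
    have : (gr m).edist (⟨0, by omega⟩, 0) (⟨0, by omega⟩, 2) ≤ 1 :=
      Order.le_of_lt_succ (not_le.1 hlt)
    rcases SimpleGraph.edist_le_one_iff_adj_or_eq.1 this with (h1 | h1) | h1
    · exact h1 rfl
    · exact absurd (show h 0 2 from h1) (by decide)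
    · simp at h1

/-- For every m at least 2 there is a graph of diameter 2 on n = 9 m vertices whose balls of
radius 1 all have n - 6 vertices and are pairwise isomorphic as rooted graphs, and which is not
vertex transitive. -/
theorem result (m : ℕ) (hm : 2 ≤ m) :
    ∃ (V : Type) (_ : Fintype V) (G : SimpleGraph V),
      Fintype.card V = 9 * m ∧ G.ediam = 2 ∧ UniformBalls G 1 (9 * m - 6) ∧
        ¬ VertexTransitive G :=
  ⟨Fin m × Fin 9, inferInstance, gr m, by simp [mul_comm], diam_two hm, ⟨ball_card, iso⟩,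
    not_vt ⟨0, by omega⟩⟩

end Pool.Agent.Results.MP_409260_co.Join
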